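import Pool.Agent.N110.SE.Stm
import Pool.Agent.N769.RK.J

/-!
Project SE (helper110): the limit forms for a semigroup of self-maps, adapted from helper769's
`RK/J.lean` (the case of a group).
-/

set_option autoImplicit false
set_option linter.unusedSectionVars false
set_option linter.unusedVariables false
set_option linter.unusedSimpArgs false

open Multiset Filter Topology

namespace Pool.Agent.N441.SE

open Pool.Agent.N110 Pool.Agent.N110.RK Pool.Agent.N110.SE Pool.Agent.N769.RK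

/-- the vector `v` shifted by `k` -/
def sh {r : ℕ} (k : ℕ) (v : Lat r) : Fin r → ℕ := fun j => ((k : ℤ) + v j).toNat

/-- the constant vector -/
def cst {r : ℕ} (k : ℕ) : Fin r → ℕ := fun _ => k

/-- the domination constants -/
noncomputable def SC {α : Type} {r : ℕ} (n : ℕ) (t : Multiset α → ℝ)
    (φ : (Fin r → ℕ) → α → α) (H : α) (u : Lat r) : ℝ :=
  max 1 (4 ^ (n - 1) * t (φ (ps u) H ::ₘ replicate (n - 1) (φ (ng u) H)) /
    t (replicate n (φ (ng u) H)))

/-- the quotients -/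
noncomputable def Q {α 𝒜 : Type} {r : ℕ} (n : ℕ) (t : Multiset α → ℝ)
    (φ : (Fin r → ℕ) → α → α) (χ : Fin r → ℝ) (H : α) (m : ℕ → ℝ) (M : 𝒜 → ℕ → α)
    (k i : ℕ) (a : 𝒜) (q : ℕ) (s : Multiset (Lat r)) : ℝ :=
  if s.card = n - i then Real.exp (-((k : ℝ) * ∑ j, χ j)) *
    (t (replicate i (φ (cst (2 * k)) (M a q)) + s.map (fun v => φ (sh k v) H)) / m q ^ i) else 0

section

variable {α 𝒜 : Type} [Preorder 𝒜] {n r : ℕ} {t : Multiset α → ℝ} {φ : (Fin r → ℕ) → α → α}
  {χ : Fin r → ℝ} {mul : α → α → α} {H : α} {m : ℕ → ℝ} {M : 𝒜 → ℕ → α} {ν : ℕ} {c ε : ℝ}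

theorem Q_nonneg (h : ESys n r t φ χ mul H m M ν c ε) (k : ℕ) {i : ℕ} (hi : i ≤ ν) (a : 𝒜)
    (q : ℕ) (s : Multiset (Lat r)) : 0 ≤ Q n t φ χ H m M k i a q s := by
  unfold Q
  split_ifs with hs
  · have hν := h.hν
    exact mul_nonneg (Real.exp_pos _).le
      (div_nonneg (h.pos _ (by rw [card_add, card_replicate, card_map]; omega)).le
      (pow_nonneg (h.m_pos q).le _))
  · exact le_rfl

theorem Q_zero (k i : ℕ) (a : 𝒜) (q : ℕ) (s : Multiset (Lat r)) (hs : s.card ≠ n - i) :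
    Q n t φ χ H m M k i a q s = 0 := if_neg hs

theorem step (h : ESys n r t φ χ mul H m M ν c ε) (u : Lat r) (d : ℕ) (hd : ∀ j, |u j| ≤ d)
    (a : 𝒜) : ∃ a' : 𝒜, ∀ (k i : ℕ), i ≤ ν → ∀ (q : ℕ) (s : Multiset (Lat r)),
      (∀ v ∈ s, ∀ j, 0 ≤ (k : ℤ) + v j) →
      Q n t φ χ H m M (k + d) i a q (s.map (fun v => u + v)) ≤
        Real.exp (∑ j, χ j * (u j : ℝ)) * Q n t φ χ H m M k i a' q s := by
  obtain ⟨w, hw⟩ : ∃ w : Fin r → ℕ, w = fun j => ((d : ℤ) - u j).toNat := ⟨_, rfl⟩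
  obtain ⟨g, hg⟩ : ∃ g : Fin r → ℕ, g = fun j => (u j + (d : ℤ)).toNat := ⟨_, rfl⟩
  obtain ⟨a', ha'⟩ := h.M_f w a
  refine ⟨a', fun k i hi q s hs => ?_⟩
  have hν := h.hν
  have hm := h.m_pos q
  have d1 : ∀ j, u j ≤ d ∧ -(d : ℤ) ≤ u j := fun j => ⟨(abs_le.1 (hd j)).2, (abs_le.1 (hd j)).1⟩
  have eg : ∀ j, ((g j : ℕ) : ℝ) = (u j : ℝ) + d := by
    intro j
    have h1 : ((g j : ℕ) : ℤ) = u j + d := by
      rw [hg]
      have := d1 j
      exact Int.toNat_of_nonneg (by omega)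
    exact_mod_cast h1
  have esum : ∑ j, χ j * ((g j : ℕ) : ℝ) = ∑ j, χ j * (u j : ℝ) + d * ∑ j, χ j := by
    rw [Finset.mul_sum, ← Finset.sum_add_distrib]
    refine Finset.sum_congr rfl fun j _ => ?_
    rw [eg]
    ring
  have ec : (cst (2 * (k + d)) : Fin r → ℕ) = g + (cst (2 * k) + w) := by
    funext j
    have := d1 j
    simp only [cst, hg, hw, Pi.add_apply]
    omega
  unfold Q
  rw [card_map]
  split_ifs with hsc
  · have h1 := (ha' (cst (2 * k)) q).rep zero_le_one i (s.map (fun v => φ (sh k v) H))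
      (by rw [card_map]; omega)
    rw [one_pow, one_mul] at h1
    have e1 : replicate i (φ (cst (2 * (k + d))) (M a q)) +
        (s.map (fun v => u + v)).map (fun v => φ (sh (k + d) v) H) =
        (replicate i (φ (cst (2 * k)) (φ w (M a q))) + s.map (fun v => φ (sh k v) H)).map
          (φ g) := by
      rw [Multiset.map_add, map_replicate, Multiset.map_map, Multiset.map_map]
      congr 1
      · rw [ec, h.φ_add, h.φ_add]
        rfl
      · refine Multiset.map_congr rfl fun v hv => ?_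
        have e2 : sh (k + d) (u + v) = g + sh k v := by
          funext j
          have h2 := d1 j
          have h3 := hs v hv j
          simp only [sh, hg, Pi.add_apply]
          push_cast
          omega
        show φ (sh (k + d) (u + v)) H = φ g (φ (sh k v) H)
        rw [e2, h.φ_add]
        rfl
    rw [e1, h.inv g _ (by rw [card_add, card_replicate, card_map]; omega), esum]
    have e3 : Real.exp (-(((k + d : ℕ) : ℝ) * ∑ j, χ j)) *
        Real.exp (∑ j, χ j * (u j : ℝ) + d * ∑ j, χ j) =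
        Real.exp (∑ j, χ j * (u j : ℝ)) * Real.exp (-((k : ℝ) * ∑ j, χ j)) := by
      rw [← Real.exp_add, ← Real.exp_add]
      congr 1
      push_cast
      ring
    calc _ = (Real.exp (-(((k + d : ℕ) : ℝ) * ∑ j, χ j)) *
        Real.exp (∑ j, χ j * (u j : ℝ) + d * ∑ j, χ j)) *
        (t (replicate i (φ (cst (2 * k)) (φ w (M a q))) + s.map (fun v => φ (sh k v) H)) /
          m q ^ i) := by ring
      _ = Real.exp (∑ j, χ j * (u j : ℝ)) * (Real.exp (-((k : ℝ) * ∑ j, χ j)) *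
        (t (replicate i (φ (cst (2 * k)) (φ w (M a q))) + s.map (fun v => φ (sh k v) H)) /
          m q ^ i)) := by rw [e3]; ring
      _ ≤ _ := by gcongr
  · rw [mul_zero]

theorem Q_mono (h : ESys n r t φ χ mul H m M ν c ε) {a a' : 𝒜} (haa : a ≤ a') (k : ℕ) {i : ℕ}
    (hi : i ≤ ν) (q : ℕ) (s : Multiset (Lat r)) :
    Q n t φ χ H m M k i a q s ≤ Q n t φ χ H m M k i a' q s := by
  unfold Q
  have hν := h.hν
  have hm := h.m_pos q
  split_ifs with hs
  · have h1 := (h.mono a a' haa (cst (2 * k)) q).rep zero_le_one i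
      (s.map (fun v => φ (sh k v) H)) (by rw [card_map]; omega)
    rw [one_pow, one_mul] at h1
    gcongr
  · exact le_rfl

/-- the bound -/
noncomputable def Bd {α : Type} {r : ℕ} (n : ℕ) (t : Multiset α → ℝ)
    (φ : (Fin r → ℕ) → α → α) (χ : Fin r → ℝ) (H : α) (c : ℝ) (k i : ℕ)
    (s : Multiset (Lat r)) : ℝ :=
  if s.card = n - i then Real.exp (-((k : ℝ) * ∑ j, χ j)) *
    (c ^ i * t (replicate i H + s.map (fun v => φ (sh k v) H))) else 0

theorem Q_le (h : ESys n r t φ χ mul H m M ν c ε) (a : 𝒜) (k : ℕ) {i : ℕ}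
    (hi : i ≤ ν) (s : Multiset (Lat r)) :
    ∀ᶠ q in atTop, Q n t φ χ H m M k i a q s ≤ Bd n t φ χ H c k i s := by
  obtain ⟨a', ha'⟩ := h.M_f (cst (2 * k)) a
  filter_upwards [h.M_le a'] with q hq
  unfold Q Bd
  have hν := h.hν
  have hm := h.m_pos q
  have hc := h.hc
  split_ifs with hs
  · have h0 := ha' 0 q
    rw [h.φ_zero] at h0
    have h1 := (h0.trans zero_le_one hq).rep (by positivity) i
      (s.map (fun v => φ (sh k v) H)) (by rw [card_map]; omega)
    rw [one_mul] at h1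
    gcongr
    rw [div_le_iff₀ (by positivity)]
    refine h1.trans (le_of_eq ?_)
    rw [mul_pow]
    ring
  · exact le_rfl

theorem base (h : ESys n r t φ χ mul H m M ν c ε) (k : ℕ) (v w : Lat r)
    (hv : ∀ j, 0 ≤ (k : ℤ) + v j) (hw : ∀ j, 0 ≤ (k : ℤ) + w j) (s : Multiset α)
    (hs : s.card + 1 = n) :
    t (φ (sh k v) H ::ₘ s) ≤ SC n t φ H (v - w) * t (φ (sh k w) H ::ₘ s) := by
  obtain ⟨g, hg⟩ : ∃ g : Fin r → ℕ, g = fun j => ((k : ℤ) + min (v j) (w j)).toNat := ⟨_, rfl⟩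
  have ev : sh k v = g + ps (v - w) := by
    funext j
    have h1 := hv j
    have h2 := hw j
    simp only [sh, hg, ps, Pi.add_apply, Pi.sub_apply]
    omega
  have ew : sh k w = g + ng (v - w) := by
    funext j
    have h1 := hv j
    have h2 := hw j
    simp only [sh, hg, ng, Pi.add_apply, Pi.sub_apply, Pi.neg_apply]
    omega
  have h1 := rkt1 h.pos h.ex (φ (sh k w) H) (φ (sh k v) H) s 0 (by rw [card_zero]; omega)
  rw [add_zero, add_zero, add_zero] at h1
  have e1 : s.card = n - 1 := by omega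
  have e2 : n - 1 + 1 = n := by omega
  rw [e1, e2] at h1
  have p1 : 0 < t (replicate n (φ (ng (v - w)) H)) := h.pos _ (card_replicate _ _)
  have p2 : 0 < t (φ (sh k w) H ::ₘ s) := h.pos _ (by rw [card_cons]; exact hs)
  have k1 : t (replicate n (φ (sh k w) H)) =
      Real.exp (∑ i, χ i * (g i : ℝ)) * t (replicate n (φ (ng (v - w)) H)) := by
    rw [← h.inv g _ (card_replicate _ _), map_replicate, ew, h.φ_add]
    rfl
  have k2 : t (φ (sh k v) H ::ₘ replicate (n - 1) (φ (sh k w) H)) =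
      Real.exp (∑ i, χ i * (g i : ℝ)) *
        t (φ (ps (v - w)) H ::ₘ replicate (n - 1) (φ (ng (v - w)) H)) := by
    rw [← h.inv g _ (by rw [card_cons, card_replicate]; omega), map_cons, map_replicate, ew, ev,
      h.φ_add, h.φ_add]
    rfl
  have hE := Real.exp_pos (∑ i, χ i * (g i : ℝ))
  rw [k1, k2] at h1
  have h2 : t (φ (sh k v) H ::ₘ s) * t (replicate n (φ (ng (v - w)) H)) ≤
      4 ^ (n - 1) * t (φ (ps (v - w)) H ::ₘ replicate (n - 1) (φ (ng (v - w)) H)) *
        t (φ (sh k w) H ::ₘ s) := by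
    refine le_of_mul_le_mul_left ?_ hE
    calc _ = t (φ (sh k v) H ::ₘ s) * (Real.exp (∑ i, χ i * (g i : ℝ)) *
        t (replicate n (φ (ng (v - w)) H))) := by ring
      _ ≤ _ := h1
      _ = _ := by ring
  calc t (φ (sh k v) H ::ₘ s) ≤
      4 ^ (n - 1) * t (φ (ps (v - w)) H ::ₘ replicate (n - 1) (φ (ng (v - w)) H)) /
        t (replicate n (φ (ng (v - w)) H)) * t (φ (sh k w) H ::ₘ s) := by
        rw [div_mul_eq_mul_div, le_div_iff₀ p1]
        exact h2
    _ ≤ _ := mul_le_mul_of_nonneg_right (le_max_right _ _) p2.le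

theorem Q_dom (h : ESys n r t φ χ mul H m M ν c ε) (a : 𝒜) (k : ℕ) {i : ℕ} (hi : i ≤ ν)
    (q : ℕ) (v w : Lat r) (hv : ∀ j, 0 ≤ (k : ℤ) + v j) (hw : ∀ j, 0 ≤ (k : ℤ) + w j)
    (s : Multiset (Lat r)) :
    Q n t φ χ H m M k i a q (v ::ₘ s) ≤ SC n t φ H (v - w) * Q n t φ χ H m M k i a q (w ::ₘ s) := by
  unfold Q
  rw [card_cons, card_cons]
  have hν := h.hν
  have hm := h.m_pos q
  split_ifs with hs
  · have h1 := base h k v w hv hw (replicate i (φ (cst (2 * k)) (M a q)) +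
      s.map (fun v => φ (sh k v) H)) (by rw [card_add, card_replicate, card_map]; omega)
    rw [map_cons, map_cons, add_cons, add_cons]
    calc _ ≤ Real.exp (-((k : ℝ) * ∑ j, χ j)) * (SC n t φ H (v - w) *
          t (φ (sh k w) H ::ₘ (replicate i (φ (cst (2 * k)) (M a q)) +
            s.map (fun v => φ (sh k v) H))) / m q ^ i) := by gcongr
      _ = _ := by ring
  · simp

theorem Q_ge (hGE : StmGE) (h : ESys n r t φ χ mul H m M ν c ε) (a : 𝒜) (k : ℕ) {i : ℕ}
    (hi : i ≤ ν) (q : ℕ) : GE (n - i) (Q n t φ χ H m M k i a q) := by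
  have hν := h.hν
  have hm := h.m_pos q
  obtain ⟨M', hM'⟩ : ∃ M', M' = φ (cst (2 * k)) (M a q) := ⟨_, rfl⟩
  obtain ⟨κ, hκ⟩ : ∃ κ : ℝ, κ = Real.exp (-((k : ℝ) * ∑ j, χ j)) * (m q ^ i)⁻¹ := ⟨_, rfl⟩
  have hκ0 : 0 < κ := by rw [hκ]; positivity
  refine hGE α (Lat r) (n - i) (fun s => κ * t (replicate i M' + s)) mul
    (fun v => φ (sh k v) H) _ ?_ ?_ ?_ ?_
  · intro s hs
    have := h.pos (replicate i M' + s) (by rw [card_add, card_replicate]; omega)
    positivity
  · intro R hR x y z w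
    have h1 := h.ex (replicate i M' + R) (by rw [card_add, card_replicate]; omega) x y z w
    have e : ∀ x y : α, replicate i M' + x ::ₘ y ::ₘ R = x ::ₘ y ::ₘ (replicate i M' + R) := by
      intro x y
      rw [add_cons, add_cons]
    simp only [e]
    have h2 := mul_le_mul_of_nonneg_left h1 (mul_pos hκ0 hκ0).le
    calc _ = κ * κ * (t (x ::ₘ y ::ₘ (replicate i M' + R)) *
        t (z ::ₘ w ::ₘ (replicate i M' + R))) := by ring
      _ ≤ _ := h2
      _ = _ := by ring
  · intro x y s hs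
    have h1 := h.mul_t x y (replicate i M' + s) (by rw [card_add, card_replicate]; omega)
    simp only [add_cons]
    rw [h1, mul_add]
  · intro s hs
    unfold Q
    rw [if_pos hs, hκ, hM']
    ring

theorem Q_joint (h : ESys n r t φ χ mul H m M ν c ε) (a : 𝒜) (k : ℕ) {i : ℕ} (q : ℕ)
    (s : Multiset (Lat r)) (hs : s.card + (i + 2) = n) (x y z : Lat r) :
    Q n t φ χ H m M k (i + 1) a q (x ::ₘ s) * Q n t φ χ H m M k i a q (y ::ₘ z ::ₘ s) ≤
      2 * (Q n t φ χ H m M k (i + 1) a q (y ::ₘ s) * Q n t φ χ H m M k i a q (x ::ₘ z ::ₘ s) +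
        Q n t φ χ H m M k (i + 1) a q (z ::ₘ s) * Q n t φ χ H m M k i a q (x ::ₘ y ::ₘ s)) := by
  have hm := h.m_pos q
  obtain ⟨M', hM'⟩ : ∃ M', M' = φ (cst (2 * k)) (M a q) := ⟨_, rfl⟩
  obtain ⟨R, hR⟩ : ∃ R, R = replicate i M' + s.map (fun v => φ (sh k v) H) := ⟨_, rfl⟩
  obtain ⟨e, he⟩ : ∃ e : ℝ, e = Real.exp (-((k : ℝ) * ∑ j, χ j)) := ⟨_, rfl⟩
  have he0 : 0 < e := by rw [he]; exact Real.exp_pos _
  have k1 : ∀ x, Q n t φ χ H m M k (i + 1) a q (x ::ₘ s) =
      e * (t (M' ::ₘ φ (sh k x) H ::ₘ R) / m q ^ (i + 1)) := by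
    intro x
    unfold Q
    rw [if_pos (by rw [card_cons]; omega), ← he, ← hM', hR, map_cons, add_cons, replicate_succ,
      cons_add, cons_swap]
  have k2 : ∀ x y, Q n t φ χ H m M k i a q (x ::ₘ y ::ₘ s) =
      e * (t (φ (sh k x) H ::ₘ φ (sh k y) H ::ₘ R) / m q ^ i) := by
    intro x y
    unfold Q
    rw [if_pos (by rw [card_cons, card_cons]; omega), ← he, ← hM', hR, map_cons, map_cons,
      add_cons, add_cons]
  have h1 := h.ex R (by rw [hR, card_add, card_replicate, card_map]; omega) M' (φ (sh k x) H)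
    (φ (sh k y) H) (φ (sh k z) H)
  rw [k1, k1, k1, k2, k2, k2]
  have hκ : 0 < e * e / (m q ^ (i + 1) * m q ^ i) := by positivity
  have h2 := mul_le_mul_of_nonneg_left h1 hκ.le
  calc _ = e * e / (m q ^ (i + 1) * m q ^ i) * (t (M' ::ₘ φ (sh k x) H ::ₘ R) *
      t (φ (sh k y) H ::ₘ φ (sh k z) H ::ₘ R)) := by field_simp
    _ ≤ _ := h2
    _ = _ := by field_simp

theorem Q_low (h : ESys n r t φ χ mul H m M ν c ε) (k : ℕ) {i : ℕ} (hi : i ≤ ν) :
    ∃ a : 𝒜, ∀ᶠ q in atTop, ε / c ^ (ν - i) ≤ Q n t φ χ H m M k i a q (replicate (n - i) 0) := by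
  obtain ⟨a, ha⟩ := h.eps (cst k)
  obtain ⟨a', ha'⟩ := h.M_f (cst k) a
  refine ⟨a, ?_⟩
  filter_upwards [ha, h.M_le a'] with q hq hq2
  have hν := h.hν
  have hm := h.m_pos q
  have hc := h.hc
  have h0 := ha' 0 q
  rw [h.φ_zero] at h0
  have h1 := h0.trans zero_le_one hq2
  rw [one_mul] at h1
  obtain ⟨M', hM'⟩ : ∃ M', M' = φ (cst k) (M a q) := ⟨_, rfl⟩
  have hid : Le n t (c * m q) M' H := by
    rw [hM']
    exact h1
  rw [← hM'] at hq
  have h2 := hid.rep (by positivity) (ν - i) (replicate i M' + replicate (n - ν) H)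
    (by rw [card_add, card_replicate, card_replicate]; omega)
  have e1 : replicate (ν - i) M' + (replicate i M' + replicate (n - ν) H) =
      replicate ν M' + replicate (n - ν) H := by
    rw [← add_assoc, ← replicate_add]
    congr 2
    omega
  have e2 : replicate (ν - i) H + (replicate i M' + replicate (n - ν) H) =
      replicate i M' + replicate (n - i) H := by
    rw [add_left_comm, ← replicate_add]
    congr 2
    omega
  rw [e1, e2] at h2
  have e3 : Q n t φ χ H m M k i a q (replicate (n - i) 0) =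
      t (replicate i M' + replicate (n - i) H) / m q ^ i := by
    unfold Q
    rw [card_replicate, if_pos rfl, map_replicate]
    have e4 : replicate i (φ (cst (2 * k)) (M a q)) + replicate (n - i) (φ (sh k 0) H) =
        (replicate i M' + replicate (n - i) H).map (φ (cst k)) := by
      rw [Multiset.map_add, map_replicate, map_replicate]
      have e5 : (cst (2 * k) : Fin r → ℕ) = cst k + cst k := by
        funext j
        simp only [cst, Pi.add_apply]
        omega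
      have e6 : (sh k 0 : Fin r → ℕ) = cst k := by
        funext j
        simp [sh, cst]
      rw [e5, e6, h.φ_add, hM']
      rfl
    rw [e4, h.inv _ _ (by rw [card_add, card_replicate, card_replicate]; omega)]
    have e7 : ∑ j, χ j * (((cst k : Fin r → ℕ) j : ℕ) : ℝ) = k * ∑ j, χ j := by
      rw [Finset.mul_sum]
      refine Finset.sum_congr rfl fun j _ => ?_
      simp only [cst]
      ring
    rw [e7, mul_div_assoc, ← mul_assoc, ← Real.exp_add, neg_add_cancel, Real.exp_zero, one_mul]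
  rw [e3, le_div_iff₀ (by positivity), div_mul_eq_mul_div, div_le_iff₀ (by positivity)]
  have h3 := hq.trans h2
  have hmi : 0 < m q ^ (ν - i) := by positivity
  refine le_of_mul_le_mul_right ?_ hmi
  calc ε * m q ^ i * m q ^ (ν - i) = ε * m q ^ ν := by
        rw [mul_assoc, ← pow_add]
        congr 2
        omega
    _ ≤ _ := h3
    _ = _ := by
      rw [mul_pow]
      ring

theorem Q_val (h : ESys n r t φ χ mul H m M ν c ε) (a : 𝒜) (k : ℕ) (q : ℕ) (v : Lat r)
    (hv : ∀ j, 0 ≤ (k : ℤ) + v j) :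
    Q n t φ χ H m M k 0 a q (v ::ₘ replicate (n - 1) 0) =
      Real.exp (-∑ i, χ i * (ng v i : ℝ)) *
        t (φ (ps v) H ::ₘ replicate (n - 1) (φ (ng v) H)) := by
  have hn := h.hn
  obtain ⟨g, hg⟩ : ∃ g : Fin r → ℕ, g = fun j => k - ng v j := ⟨_, rfl⟩
  have hng : ∀ j, ng v j ≤ k := by
    intro j
    have := hv j
    simp only [ng]
    omega
  have e1 : sh k v = g + ps v := by
    funext j
    have h1 := hv j
    simp only [sh, hg, ps, ng, Pi.add_apply]
    omega
  have e2 : (sh k 0 : Fin r → ℕ) = g + ng v := by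
    funext j
    have h1 := hng j
    simp only [sh, hg, Pi.add_apply, Pi.zero_apply]
    omega
  unfold Q
  rw [if_pos (by rw [card_cons, card_replicate]; omega), replicate_zero, zero_add, pow_zero,
    div_one, map_cons, map_replicate]
  have e4 : φ (sh k v) H ::ₘ replicate (n - 1) (φ (sh k 0) H) =
      (φ (ps v) H ::ₘ replicate (n - 1) (φ (ng v) H)).map (φ g) := by
    rw [map_cons, map_replicate, e1, e2, h.φ_add, h.φ_add]
    rfl
  rw [e4, h.inv _ _ (by rw [card_cons, card_replicate]; omega), ← mul_assoc, ← Real.exp_add]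
  congr 2
  have e5 : ∑ j, χ j * ((g j : ℕ) : ℝ) = k * ∑ j, χ j - ∑ j, χ j * (ng v j : ℝ) := by
    rw [Finset.mul_sum, ← Finset.sum_sub_distrib]
    refine Finset.sum_congr rfl fun j _ => ?_
    rw [hg]
    simp only []
    rw [Nat.cast_sub (hng j)]
    ring
  rw [e5]
  ring

end

theorem lim_ex (𝒰 : Ultrafilter ℕ) (f : ℕ → ℝ) (B : ℝ) (h : ∀ᶠ q in (𝒰 : Filter ℕ), f q ∈ Set.Icc 0 B) :
    ∃ x : ℝ, 0 ≤ x ∧ x ≤ B ∧ Tendsto f 𝒰 (𝓝 x) := by
  have h1 : ((𝒰.map f : Ultrafilter ℝ) : Filter ℝ) ≤ 𝓟 (Set.Icc 0 B) := by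
    rw [le_principal_iff, Ultrafilter.coe_map, Filter.mem_map]
    exact h
  obtain ⟨x, hx, hx2⟩ := isCompact_Icc.ultrafilter_le_nhds _ h1
  exact ⟨x, hx.1, hx.2, by rw [Ultrafilter.coe_map] at hx2; exact hx2⟩

theorem k0_ex {r : ℕ} (s : Multiset (Lat r)) : ∃ k : ℕ, ∀ v ∈ s, ∀ j, 0 ≤ (k : ℤ) + v j := by
  induction s using Multiset.induction_on with
  | empty => exact ⟨0, fun v hv => absurd hv (notMem_zero v)⟩
  | cons u s ih =>
    obtain ⟨k, hk⟩ := ih
    refine ⟨k + ∑ j, (u j).natAbs, fun v hv j => ?_⟩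
    rcases mem_cons.1 hv with rfl | hv
    · have h1 : (v j).natAbs ≤ ∑ j, (v j).natAbs :=
        Finset.single_le_sum (f := fun j => (v j).natAbs) (fun _ _ => Nat.zero_le _)
          (Finset.mem_univ j)
      omega
    · have h1 := hk v hv j
      push_cast
      have h2 : (0 : ℤ) ≤ ∑ j, |u j| := Finset.sum_nonneg fun _ _ => abs_nonneg _
      linarith

/-- **The limit forms.** -/
theorem leafSJ (hGE : StmGE) : StmSJ := by
  intro α 𝒜 _ _ _ n r t φ χ mul H m M ν c ε h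
  have hν := h.hν
  have hn := h.hn
  refine ⟨SC n t φ H, fun v => le_max_left _ _, ?_⟩
  obtain ⟨𝒰, h𝒰⟩ : ∃ 𝒰 : Ultrafilter ℕ, (𝒰 : Filter ℕ) ≤ atTop :=
    ⟨Ultrafilter.of atTop, Ultrafilter.of_le atTop⟩
  have hNB : (𝒰 : Filter ℕ).NeBot := inferInstance
  -- the limits along the ultrafilter
  have hlim : ∀ (i k : ℕ) (a : 𝒜) (s : Multiset (Lat r)), i ≤ ν → ∃ x : ℝ, 0 ≤ x ∧
      x ≤ Bd n t φ χ H c k i s ∧
      Tendsto (fun q => Q n t φ χ H m M k i a q s) 𝒰 (𝓝 x) := by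
    intro i k a s hi
    apply lim_ex
    filter_upwards [h𝒰 (Q_le h a k hi s)] with q hq
    exact ⟨Q_nonneg h k hi a q s, hq⟩
  choose! K hK0 hKB hK using hlim
  have hKmono : ∀ i k s, i ≤ ν → Monotone fun a => K i k a s := fun i k s hi a a' haa =>
    le_of_tendsto_of_tendsto (hK i k a s hi) (hK i k a' s hi)
      (Eventually.of_forall fun q => Q_mono h haa k hi q s)
  have hbdd : ∀ i k s, i ≤ ν → BddAbove (Set.range fun a => K i k a s) := by
    intro i k s hi
    refine ⟨Bd n t φ χ H c k i s, ?_⟩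
    rintro _ ⟨a, rfl⟩
    exact hKB i k a s hi
  obtain ⟨J, hJ⟩ : ∃ J : ℕ → ℕ → Multiset (Lat r) → ℝ, J = fun i k s => ⨆ a, K i k a s :=
    ⟨_, rfl⟩
  have hJle : ∀ i k a s, i ≤ ν → K i k a s ≤ J i k s := by
    intro i k a s hi
    rw [hJ]
    exact le_ciSup (hbdd i k s hi) a
  have hJtend : ∀ i k s, i ≤ ν → Tendsto (fun a => K i k a s) atTop (𝓝 (J i k s)) := by
    intro i k s hi
    rw [hJ]
    exact tendsto_atTop_ciSup (hKmono i k s hi) (hbdd i k s hi)
  have hKge : ∀ i k a, i ≤ ν → GE (n - i) (K i k a) := fun i k a hi =>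
    (isClosed_GE (n - i)).mem_of_tendsto (tendsto_pi_nhds.2 fun s => hK i k a s hi)
      (Eventually.of_forall fun q => Q_ge hGE h a k hi q)
  have hJge : ∀ i k, i ≤ ν → GE (n - i) (J i k) := fun i k hi =>
    (isClosed_GE (n - i)).mem_of_tendsto (tendsto_pi_nhds.2 fun s => hJtend i k s hi)
      (Eventually.of_forall fun a => hKge i k a hi)
  have hKdom : ∀ (i k : ℕ) (a : 𝒜) (v w : Lat r) (s : Multiset (Lat r)), i ≤ ν → (∀ j, 0 ≤ (k : ℤ) + v j) → (∀ j, 0 ≤ (k : ℤ) + w j) →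
      K i k a (v ::ₘ s) ≤ SC n t φ H (v - w) * K i k a (w ::ₘ s) :=
    fun i k a v w s hi hv hw =>
      le_of_tendsto_of_tendsto (hK i k a _ hi) ((hK i k a _ hi).const_mul _)
        (Eventually.of_forall fun q => Q_dom h a k hi q v w hv hw s)
  have hJdom : ∀ (i k : ℕ) (v w : Lat r) (s : Multiset (Lat r)), i ≤ ν → (∀ j, 0 ≤ (k : ℤ) + v j) → (∀ j, 0 ≤ (k : ℤ) + w j) →
      J i k (v ::ₘ s) ≤ SC n t φ H (v - w) * J i k (w ::ₘ s) :=
    fun i k v w s hi hv hw =>
      le_of_tendsto_of_tendsto (hJtend i k _ hi) ((hJtend i k _ hi).const_mul _)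
        (Eventually.of_forall fun a => hKdom i k a v w s hi hv hw)
  have hJnn : ∀ i k s, i ≤ ν → 0 ≤ J i k s := fun i k s hi =>
    (hK0 i k (Classical.arbitrary 𝒜) s hi).trans (hJle i k _ s hi)
  have hJzero : ∀ i k s, i ≤ ν → s.card ≠ n - i → J i k s = 0 := by
    intro i k s hi hs
    refine le_antisymm ?_ (hJnn i k s hi)
    have h1 : ∀ a, K i k a s ≤ 0 := by
      intro a
      have := hKB i k a s hi
      unfold Bd at this
      simpa only [if_neg hs] using this
    rw [hJ]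
    exact ciSup_le h1
  have hJstep : ∀ (i k d : ℕ) (u : Lat r) (s : Multiset (Lat r)), i ≤ ν → (∀ j, |u j| ≤ d) →
      (∀ v ∈ s, ∀ j, 0 ≤ (k : ℤ) + v j) →
      J i (k + d) (s.map (fun v => u + v)) ≤ Real.exp (∑ j, χ j * (u j : ℝ)) * J i k s := by
    intro i k d u s hi hd hs
    have h1 : ∀ a, K i (k + d) a (s.map (fun v => u + v)) ≤
        Real.exp (∑ j, χ j * (u j : ℝ)) * J i k s := by
      intro a
      obtain ⟨a', ha'⟩ := step h u d hd a
      refine (le_of_tendsto_of_tendsto (hK i (k + d) a _ hi) ((hK i k a' _ hi).const_mul _)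
        (Eventually.of_forall fun q => ha' k i hi q s hs)).trans ?_
      exact mul_le_mul_of_nonneg_left (hJle i k a' s hi) (Real.exp_pos _).le
    exact le_of_tendsto (hJtend i (k + d) _ hi) (Eventually.of_forall h1)
  have hKjoint : ∀ i k a, i + 1 ≤ ν → ∀ s : Multiset (Lat r), s.card + (i + 2) = n →
      ∀ x y z : Lat r, K (i + 1) k a (x ::ₘ s) * K i k a (y ::ₘ z ::ₘ s) ≤
        2 * (K (i + 1) k a (y ::ₘ s) * K i k a (x ::ₘ z ::ₘ s) +
          K (i + 1) k a (z ::ₘ s) * K i k a (x ::ₘ y ::ₘ s)) := by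
    intro i k a hi s hs x y z
    have hi' : i ≤ ν := by omega
    exact le_of_tendsto_of_tendsto ((hK _ k a _ hi).mul (hK _ k a _ hi'))
      ((((hK _ k a _ hi).mul (hK _ k a _ hi')).add
        ((hK _ k a _ hi).mul (hK _ k a _ hi'))).const_mul 2)
      (Eventually.of_forall fun q => Q_joint h a k q s hs x y z)
  have hJjoint : ∀ i k, i + 1 ≤ ν → ∀ s : Multiset (Lat r), s.card + (i + 2) = n →
      ∀ x y z : Lat r, J (i + 1) k (x ::ₘ s) * J i k (y ::ₘ z ::ₘ s) ≤
        2 * (J (i + 1) k (y ::ₘ s) * J i k (x ::ₘ z ::ₘ s) +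
          J (i + 1) k (z ::ₘ s) * J i k (x ::ₘ y ::ₘ s)) := by
    intro i k hi s hs x y z
    have hi' : i ≤ ν := by omega
    exact le_of_tendsto_of_tendsto ((hJtend _ k _ hi).mul (hJtend _ k _ hi'))
      ((((hJtend _ k _ hi).mul (hJtend _ k _ hi')).add
        ((hJtend _ k _ hi).mul (hJtend _ k _ hi'))).const_mul 2)
      (Eventually.of_forall fun a => hKjoint i k a hi s hs x y z)
  have hJlow : ∀ i k, i ≤ ν → ε / c ^ (ν - i) ≤ J i k (replicate (n - i) 0) := by
    intro i k hi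
    obtain ⟨a, ha⟩ := Q_low h k hi
    exact (ge_of_tendsto (hK i k a _ hi) (h𝒰 ha)).trans (hJle i k a _ hi)
  have hJval : ∀ (k : ℕ) (v : Lat r), (∀ j, 0 ≤ (k : ℤ) + v j) →
      J 0 k (v ::ₘ replicate (n - 1) 0) = Real.exp (-∑ i, χ i * (ng v i : ℝ)) *
        t (φ (ps v) H ::ₘ replicate (n - 1) (φ (ng v) H)) := by
    intro k v hv
    have h1 : ∀ a, K 0 k a (v ::ₘ replicate (n - 1) 0) = Real.exp (-∑ i, χ i * (ng v i : ℝ)) *
        t (φ (ps v) H ::ₘ replicate (n - 1) (φ (ng v) H)) := by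
      intro a
      have h2 := hK 0 k a (v ::ₘ replicate (n - 1) 0) (Nat.zero_le _)
      refine tendsto_nhds_unique h2 ?_
      have h3 : (fun q => Q n t φ χ H m M k 0 a q (v ::ₘ replicate (n - 1) 0)) = fun _ =>
          Real.exp (-∑ i, χ i * (ng v i : ℝ)) *
            t (φ (ps v) H ::ₘ replicate (n - 1) (φ (ng v) H)) :=
        funext fun q => Q_val h a k q v hv
      rw [h3]
      exact tendsto_const_nhds
    rw [hJ]
    simp only [h1]
    exact ciSup_const
  -- the limit for `k → ∞`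
  choose k0 hk0 using fun s : Multiset (Lat r) => k0_ex s
  have hk0' : ∀ (s : Multiset (Lat r)) (k : ℕ), ∀ v ∈ s, ∀ j, 0 ≤ ((k + k0 s : ℕ) : ℤ) + v j := by
    intro s k v hv j
    have := hk0 s v hv j
    push_cast
    linarith [Int.natCast_nonneg k]
  have hJle2 : ∀ (i k d : ℕ) (s : Multiset (Lat r)), i ≤ ν → (∀ v ∈ s, ∀ j, 0 ≤ (k : ℤ) + v j) →
      J i (k + d) s ≤ J i k s := by
    intro i k d s hi hs
    have h1 := hJstep i k d 0 s hi (fun j => by simp) hs
    simpa using h1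
  have hanti : ∀ i s, i ≤ ν → Antitone fun k => J i (k + k0 s) s := by
    intro i s hi k k' hkk
    obtain ⟨d, rfl⟩ := Nat.exists_eq_add_of_le hkk
    have h1 := hJle2 i (k + k0 s) d s hi (hk0' s k)
    have h2 : k + d + k0 s = k + k0 s + d := by omega
    simp only [h2]
    exact h1
  obtain ⟨T0, hT0⟩ : ∃ T0 : ℕ → Multiset (Lat r) → ℝ, T0 = fun i s => ⨅ k, J i (k + k0 s) s :=
    ⟨_, rfl⟩
  have hT : ∀ i s, i ≤ ν → Tendsto (fun k => J i k s) atTop (𝓝 (T0 i s)) := by
    intro i s hi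
    rw [← tendsto_add_atTop_iff_nat (k0 s), hT0]
    refine tendsto_atTop_ciInf (hanti i s hi) ⟨0, ?_⟩
    rintro _ ⟨k, rfl⟩
    exact hJnn i _ s hi
  have hev : ∀ v : Lat r, ∀ᶠ k : ℕ in atTop, ∀ j, 0 ≤ (k : ℤ) + v j := by
    intro v
    obtain ⟨k1, hk1⟩ := k0_ex ({v} : Multiset (Lat r))
    filter_upwards [eventually_ge_atTop k1] with k hk j
    have := hk1 v (mem_singleton_self v) j
    omega
  have hTnn : ∀ i s, i ≤ ν → 0 ≤ T0 i s := fun i s hi =>
    ge_of_tendsto (hT i s hi) (Eventually.of_forall fun k => hJnn i k s hi)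
  have hTzero : ∀ i s, i ≤ ν → s.card ≠ n - i → T0 i s = 0 := by
    intro i s hi hs
    refine tendsto_nhds_unique (hT i s hi) ?_
    have h1 : (fun k => J i k s) = fun _ => 0 := funext fun k => hJzero i k s hi hs
    rw [h1]
    exact tendsto_const_nhds
  have hTge : ∀ i, i ≤ ν → GE (n - i) (T0 i) := fun i hi =>
    (isClosed_GE (n - i)).mem_of_tendsto (tendsto_pi_nhds.2 fun s => hT i s hi)
      (Eventually.of_forall fun k => hJge i k hi)
  have hTdom : ∀ i v w s, i ≤ ν → T0 i (v ::ₘ s) ≤ SC n t φ H (v - w) * T0 i (w ::ₘ s) := by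
    intro i v w s hi
    refine le_of_tendsto_of_tendsto (hT i _ hi) ((hT i _ hi).const_mul _) ?_
    filter_upwards [hev v, hev w] with k hv hw
    exact hJdom i k v w s hi hv hw
  have hTstep : ∀ i (u : Lat r) s, i ≤ ν →
      T0 i (s.map (fun v => u + v)) ≤ Real.exp (∑ j, χ j * (u j : ℝ)) * T0 i s := by
    intro i u s hi
    obtain ⟨d, hd⟩ : ∃ d : ℕ, ∀ j, |u j| ≤ d := by
      refine ⟨∑ j, (u j).natAbs, fun j => ?_⟩
      have h1 : (u j).natAbs ≤ ∑ j, (u j).natAbs :=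
        Finset.single_le_sum (f := fun j => (u j).natAbs) (fun _ _ => Nat.zero_le _)
          (Finset.mem_univ j)
      rw [Int.abs_eq_natAbs]
      exact_mod_cast h1
    have h1 := (tendsto_add_atTop_iff_nat d).2 (hT i (s.map (fun v => u + v)) hi)
    refine le_of_tendsto_of_tendsto h1 ((hT i s hi).const_mul _) ?_
    filter_upwards [eventually_ge_atTop (k0 s)] with k hk
    obtain ⟨l, rfl⟩ := Nat.exists_eq_add_of_le' hk
    exact hJstep i (l + k0 s) d u s hi hd (hk0' s l)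
  have hTinv : ∀ i (u : Lat r) s, i ≤ ν →
      T0 i (s.map (fun v => u + v)) = Real.exp (∑ j, χ j * (u j : ℝ)) * T0 i s := by
    intro i u s hi
    refine le_antisymm (hTstep i u s hi) ?_
    have h1 := hTstep i (-u) (s.map (fun v => u + v)) hi
    rw [Multiset.map_map] at h1
    have e : ((fun v : Lat r => -u + v) ∘ fun v => u + v) = id := by
      funext v
      simp
    rw [e, Multiset.map_id] at h1
    have e2 : ∑ j, χ j * (((-u) j : ℤ) : ℝ) = -∑ j, χ j * (u j : ℝ) := by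
      rw [← Finset.sum_neg_distrib]
      refine Finset.sum_congr rfl fun j _ => ?_
      simp
    rw [e2] at h1
    have h2 := mul_le_mul_of_nonneg_left h1 (Real.exp_pos (∑ j, χ j * (u j : ℝ))).le
    rw [← mul_assoc, ← Real.exp_add, add_neg_cancel, Real.exp_zero, one_mul] at h2
    exact h2
  have hTjoint : ∀ i, i + 1 ≤ ν → ∀ s : Multiset (Lat r), s.card + (i + 2) = n →
      ∀ x y z : Lat r, T0 (i + 1) (x ::ₘ s) * T0 i (y ::ₘ z ::ₘ s) ≤
        2 * (T0 (i + 1) (y ::ₘ s) * T0 i (x ::ₘ z ::ₘ s) +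
          T0 (i + 1) (z ::ₘ s) * T0 i (x ::ₘ y ::ₘ s)) := by
    intro i hi s hs x y z
    have hi' : i ≤ ν := by omega
    exact le_of_tendsto_of_tendsto ((hT _ _ hi).mul (hT _ _ hi'))
      ((((hT _ _ hi).mul (hT _ _ hi')).add ((hT _ _ hi).mul (hT _ _ hi'))).const_mul 2)
      (Eventually.of_forall fun k => hJjoint i k hi s hs x y z)
  have hTval : ∀ v : Lat r, T0 0 (v ::ₘ replicate (n - 1) 0) =
      Real.exp (-∑ i, χ i * (ng v i : ℝ)) *
        t (φ (ps v) H ::ₘ replicate (n - 1) (φ (ng v) H)) := by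
    intro v
    refine tendsto_nhds_unique (hT 0 _ (Nat.zero_le _)) ?_
    refine Tendsto.congr' ?_ tendsto_const_nhds
    filter_upwards [hev v] with k hk
    exact (hJval k v hk).symm
  have hκ0 : ∀ i, i ≤ ν → 0 < T0 i (replicate (n - i) 0) := by
    intro i hi
    have hc := h.hc
    have hε := h.hε
    have h1 : 0 < ε / c ^ (ν - i) := by positivity
    exact h1.trans_le (ge_of_tendsto (hT i _ hi) (Eventually.of_forall fun k => hJlow i k hi))
  refine ⟨fun i s => (T0 i (replicate (n - i) 0))⁻¹ * T0 i s, ?_, ?_, ?_⟩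
  · intro i hi
    have hκi : 0 ≤ (T0 i (replicate (n - i) 0))⁻¹ := (inv_pos.2 (hκ0 i hi)).le
    refine ⟨fun s => mul_nonneg hκi (hTnn i s hi), fun s hs => by
      beta_reduce
      rw [hTzero i s hi hs, mul_zero],
      inv_mul_cancel₀ (hκ0 i hi).ne', ?_, GE_smul (hTge i hi) _, ?_⟩
    · intro v w s
      have := mul_le_mul_of_nonneg_left (hTdom i v w s hi) hκi
      calc (T0 i (replicate (n - i) 0))⁻¹ * T0 i (v ::ₘ s) ≤
          (T0 i (replicate (n - i) 0))⁻¹ * (SC n t φ H (v - w) * T0 i (w ::ₘ s)) := this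
        _ = SC n t φ H (v - w) * ((T0 i (replicate (n - i) 0))⁻¹ * T0 i (w ::ₘ s)) := by ring
    · intro u s
      beta_reduce
      rw [hTinv i u s hi]
      ring
  · intro i hi s hs x y z
    have hi' : i ≤ ν := by omega
    have k1 := hκ0 (i + 1) hi
    have k2 := hκ0 i hi'
    have k3 : 0 ≤ (T0 (i + 1) (replicate (n - (i + 1)) 0))⁻¹ *
        (T0 i (replicate (n - i) 0))⁻¹ := by positivity
    have h1 := mul_le_mul_of_nonneg_left (hTjoint i hi s hs x y z) k3
    calc _ = (T0 (i + 1) (replicate (n - (i + 1)) 0))⁻¹ * (T0 i (replicate (n - i) 0))⁻¹ *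
          (T0 (i + 1) (x ::ₘ s) * T0 i (y ::ₘ z ::ₘ s)) := by ring
      _ ≤ _ := h1
      _ = _ := by ring
  · intro v
    have h1 : T0 0 (replicate (n - 0) 0) = t (replicate n H) := by
      have h2 := hTval 0
      have e1 : (0 : Lat r) ::ₘ replicate (n - 1) 0 = replicate (n - 0) 0 := by
        rw [← replicate_succ]
        congr 1
        omega
      have e2 : (ps (0 : Lat r)) = 0 := by
        funext j
        simp [ps]
      have e3 : (ng (0 : Lat r)) = 0 := by
        funext j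
        simp [ng]
      have e4 : H ::ₘ replicate (n - 1) H = replicate n H := by
        rw [← replicate_succ]
        congr 1
        omega
      rw [e1, e2, e3, h.φ_zero] at h2
      simpa [e4] using h2
    have h2 : 0 < t (replicate n H) := h.pos _ (card_replicate _ _)
    simp only []
    rw [h1, hTval v, mul_comm, ← mul_assoc, mul_inv_cancel₀ h2.ne', one_mul]

/-- the limit forms, unconditionally -/
theorem sj : StmSJ := leafSJ leafGE

end Pool.Agent.N441.SE
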